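import Pool.Agent.V11238.MG.AbCov

/-!
# Locally finite `p`-groups of finite exponent covered by the conjugates of a proper abelian subgroup
-/

set_option autoImplicit false

open Subgroup Pool.Agent.V11238.MG

namespace Pool.Agent.Results.MP_21aa77_al.PerfectReduction

/-- `(G, A)` is an example for Q1 with the prime `p` and exponent dividing `n`: `G` is a locally
finite `p`-group with `x ^ n = 1` for all `x`, and `A` is a proper abelian subgroup whose conjugates
cover `G`. -/
def Example (p n : ℕ) (G : Type) [Group G] (A : Subgroup G) : Prop :=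
  (∀ s : Set G, s.Finite → (closure s : Set G).Finite) ∧ IsPGroup p G ∧ (∀ x : G, x ^ n = 1) ∧
    A ≠ ⊤ ∧ (∀ a ∈ A, ∀ b ∈ A, a * b = b * a) ∧ ∀ x : G, ∃ g : G, g⁻¹ * x * g ∈ A

theorem result (p n : ℕ) (G : Type) [Group G] (A : Subgroup G) (h : Example p n G A) :
    ¬ Group.IsSolvable G ∧ ⁅commutator G, commutator G⁆ = commutator G ∧
    ∃ (Q : Type) (_ : Group Q) (B : Subgroup Q), Example p n Q B ∧ Countable Q ∧
      commutator Q = ⊤ ∧ center Q = ⊥ ∧ B.normalCore = ⊥ := by
  obtain ⟨hlf, hpg, hexp, hne, hab, hcov⟩ := h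
  have hc : CovAb A := by
    intro x
    obtain ⟨g, hg⟩ := hcov x
    exact ⟨g⁻¹, by rwa [inv_inv]⟩
  have hA : AbSub A := hab
  obtain ⟨hperf, hns, -⟩ := abcov_main hc hA hne
  refine ⟨hns, hperf, ?_⟩
  obtain ⟨H, hH, hcH, hneH⟩ := hc.countable hne
  have hAH : AbSub (A.subgroupOf H) := fun x hx y hy => Subtype.ext (hA _ hx _ hy)
  obtain ⟨-, -, K, hK, B, h1, h2, h3, h4, h5, h6⟩ := abcov_main hcH hAH hneH
  have hloc : LocFin G := fun S => hlf _ S.finite_toSet
  have hloc' : LocFin (commutator H ⧸ K) := ((hloc.subgroup H).subgroup (commutator H)).quot K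
  refine ⟨commutator H ⧸ K, inferInstance, B, ⟨?_, ?_, ?_, h3, h2, ?_⟩, ?_, h4, h5, h6⟩
  · intro s hs
    have := hloc' hs.toFinset
    rwa [Set.Finite.coe_toFinset] at this
  · exact ((hpg.to_subgroup H).to_subgroup (commutator H)).to_quotient K
  · intro q
    obtain ⟨g, rfl⟩ := QuotientGroup.mk'_surjective K q
    rw [← map_pow]
    have hg : g ^ n = 1 := Subtype.ext (Subtype.ext (hexp _))
    rw [hg, map_one]
  · intro x
    obtain ⟨g, hg⟩ := h1 x
    exact ⟨g⁻¹, by rwa [inv_inv]⟩
  · exact Quotient.countable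

end Pool.Agent.Results.MP_21aa77_al.PerfectReduction
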